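import Pool.Agent.X196.Sq.Par

/-!
# Compactness: a finite set of matrices such that every point of the square has three neighbours
-/

set_option autoImplicit false

namespace Pool.Agent.X196.Sq

lemma est {a b x y a' b' x' y' ε B : ℝ} (hε : 0 < ε) (ha : |a' - a| < ε) (hb : |b' - b| < ε)
    (hx : |x' - x| < ε) (hy : |y' - y| < ε) (hx1 : |x'| ≤ 1) (hy1 : |y'| ≤ 1) (ha1 : |a| ≤ B)
    (hb1 : |b| ≤ B) : |(a' * x' + b' * y') - (a * x + b * y)| ≤ 2 * ε * (1 + B) := by
  have h1 : (a' * x' + b' * y') - (a * x + b * y) =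
      (a' - a) * x' + a * (x' - x) + ((b' - b) * y' + b * (y' - y)) := by ring
  have hB : 0 ≤ B := (abs_nonneg a).trans ha1
  have h2 : |(a' - a) * x'| ≤ ε * 1 := by
    rw [abs_mul]
    exact mul_le_mul ha.le hx1 (abs_nonneg _) hε.le
  have h3 : |a * (x' - x)| ≤ B * ε := by
    rw [abs_mul]
    exact mul_le_mul ha1 hx.le (abs_nonneg _) hB
  have h4 : |(b' - b) * y'| ≤ ε * 1 := by
    rw [abs_mul]
    exact mul_le_mul hb.le hy1 (abs_nonneg _) hε.le
  have h5 : |b * (y' - y)| ≤ B * ε := by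
    rw [abs_mul]
    exact mul_le_mul hb1 hy.le (abs_nonneg _) hB
  rw [h1]
  refine (abs_add_le _ _).trans ?_
  refine (add_le_add (abs_add_le _ _) (abs_add_le _ _)).trans ?_
  linarith

/-- the matrix moves the point to the centre of the square -/
lemma exists_center (p : Fin 2 → ℝ) (hp : p ≠ 0) : ∃ h : Matrix.SpecialLinearGroup (Fin 2) ℝ,
    (vm h).mulVec p = fun _ => 1 / 2 := by
  by_cases h0 : p 0 = 0
  · have h1 : p 1 ≠ 0 := by
      intro h1
      apply hp
      funext k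
      fin_cases k
      · exact h0
      · exact h1
    refine ⟨⟨!![2 * p 1, (1 / 2 - 2 * p 0 * p 1) / p 1; 0, 1 / (2 * p 1)], ?_⟩, ?_⟩
    · rw [Matrix.det_fin_two_of]
      field_simp
      ring
    · funext k
      fin_cases k
      · show (!![2 * p 1, (1 / 2 - 2 * p 0 * p 1) / p 1; 0, 1 / (2 * p 1)] :
          Matrix (Fin 2) (Fin 2) ℝ).mulVec p 0 = 1 / 2
        simp [Matrix.mulVec, dotProduct, Fin.sum_univ_two, h0]
        field_simp
      · show (!![2 * p 1, (1 / 2 - 2 * p 0 * p 1) / p 1; 0, 1 / (2 * p 1)] :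
          Matrix (Fin 2) (Fin 2) ℝ).mulVec p 1 = 1 / 2
        simp [Matrix.mulVec, dotProduct, Fin.sum_univ_two, h0]
        field_simp
  · refine ⟨⟨!![1 / (2 * p 0), 0; (1 / 2 - 2 * p 0 * p 1) / p 0, 2 * p 0], ?_⟩, ?_⟩
    · rw [Matrix.det_fin_two_of]
      field_simp
      ring
    · funext k
      fin_cases k
      · show (!![1 / (2 * p 0), 0; (1 / 2 - 2 * p 0 * p 1) / p 0, 2 * p 0] :
          Matrix (Fin 2) (Fin 2) ℝ).mulVec p 0 = 1 / 2
        simp [Matrix.mulVec, dotProduct, Fin.sum_univ_two]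
        field_simp
      · show (!![1 / (2 * p 0), 0; (1 / 2 - 2 * p 0 * p 1) / p 0, 2 * p 0] :
          Matrix (Fin 2) (Fin 2) ℝ).mulVec p 1 = 1 / 2
        simp [Matrix.mulVec, dotProduct, Fin.sum_univ_two]
        field_simp
        ring

lemma local_nbhd (p : Fin 2 → ℝ) : ∃ (h : Matrix.SpecialLinearGroup (Fin 2) ℝ) (ε : ℝ), 0 < ε ∧
    ∀ g : Matrix (Fin 2) (Fin 2) ℝ, (∀ i j, |g i j - vm h i j| < ε) →
    ∀ p' ∈ Q, (∀ k, |p' k - p k| < ε) → g.mulVec p' ∈ Q := by
  by_cases hp : p = 0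
  · refine ⟨⟨!![2, 1; 1, 1], by rw [Matrix.det_fin_two_of]; norm_num⟩, 1 / 8, by norm_num, ?_⟩
    intro g hg p' hp' hpp k
    have h0 := hp' 0
    have h1 := hp' 1
    have h2 := (abs_lt.1 (hpp 0)).2
    have h3 := (abs_lt.1 (hpp 1)).2
    simp only [hp, Pi.zero_apply, sub_zero] at h2 h3
    have h4 : 7 / 8 < g k 0 ∧ g k 0 < 17 / 8 := by
      have := abs_lt.1 (hg k 0)
      have h5 : vm (⟨!![2, 1; 1, 1], by rw [Matrix.det_fin_two_of]; norm_num⟩ :
          Matrix.SpecialLinearGroup (Fin 2) ℝ) k 0 = (!![2, 1; 1, 1] : Matrix (Fin 2) (Fin 2) ℝ) k 0 :=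
        rfl
      rw [h5] at this
      fin_cases k <;> simp at this ⊢ <;> constructor <;> linarith [this.1, this.2]
    have h4' : 7 / 8 < g k 1 ∧ g k 1 < 17 / 8 := by
      have := abs_lt.1 (hg k 1)
      have h5 : vm (⟨!![2, 1; 1, 1], by rw [Matrix.det_fin_two_of]; norm_num⟩ :
          Matrix.SpecialLinearGroup (Fin 2) ℝ) k 1 = (!![2, 1; 1, 1] : Matrix (Fin 2) (Fin 2) ℝ) k 1 :=
        rfl
      rw [h5] at this
      fin_cases k <;> simp at this ⊢ <;> constructor <;> linarith [this.1, this.2]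
    have h5 : g.mulVec p' k = g k 0 * p' 0 + g k 1 * p' 1 := by
      simp [Matrix.mulVec, dotProduct, Fin.sum_univ_two]
    rw [h5]
    constructor
    · have := mul_pos (lt_trans (by norm_num) h4.1 : (0 : ℝ) < g k 0) h0.1
      have := mul_pos (lt_trans (by norm_num) h4'.1 : (0 : ℝ) < g k 1) h1.1
      linarith
    · nlinarith [h4.1, h4.2, h4'.1, h4'.2, h0.1, h1.1]
  · obtain ⟨h, hh⟩ := exists_center p hp
    obtain ⟨B, hB⟩ : ∃ B : ℝ, ∀ i j, |vm h i j| ≤ B := by
      refine ⟨∑ i, ∑ j, |vm h i j|, fun i j => ?_⟩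
      exact (Finset.single_le_sum (f := fun j => |vm h i j|) (fun j _ => abs_nonneg _)
        (Finset.mem_univ j)).trans (Finset.single_le_sum (f := fun i => ∑ j, |vm h i j|)
        (fun i _ => Finset.sum_nonneg fun j _ => abs_nonneg _) (Finset.mem_univ i))
    have hB0 : 0 ≤ B := (abs_nonneg _).trans (hB 0 0)
    refine ⟨h, 1 / (8 * (1 + B)), by positivity, ?_⟩
    intro g hg p' hp' hpp k
    have h5 : g.mulVec p' k = g k 0 * p' 0 + g k 1 * p' 1 := by
      simp [Matrix.mulVec, dotProduct, Fin.sum_univ_two]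
    have h6 : vm h k 0 * p 0 + vm h k 1 * p 1 = 1 / 2 := by
      have := congrFun hh k
      simpa [Matrix.mulVec, dotProduct, Fin.sum_univ_two] using this
    have h7 : ∀ k, |p' k| ≤ 1 := by
      intro k
      rw [abs_le]
      constructor <;> linarith [(hp' k).1, (hp' k).2]
    have h8 := est (by positivity) (hg k 0) (hg k 1) (hpp 0) (hpp 1) (h7 0) (h7 1) (hB k 0) (hB k 1)
    rw [h6, ← h5] at h8
    have h9 : 2 * (1 / (8 * (1 + B))) * (1 + B) = 1 / 4 := by
      field_simp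
      norm_num
    rw [h9, abs_le] at h8
    constructor <;> linarith [h8.1, h8.2]

/-- all the neighbours, robustly -/
lemma exists_finite : ∃ (P : Finset (Fin 2 → ℝ)) (h : (Fin 2 → ℝ) → Matrix.SpecialLinearGroup (Fin 2) ℝ)
    (ε : (Fin 2 → ℝ) → ℝ), (∀ p, 0 < ε p) ∧ ∀ p' ∈ Q, ∃ p ∈ P,
      ∀ g : Matrix (Fin 2) (Fin 2) ℝ, (∀ i j, |g i j - vm (h p) i j| < ε p) → g.mulVec p' ∈ Q := by
  choose h ε hε hh using local_nbhd
  have hK : IsCompact (Set.Icc (0 : Fin 2 → ℝ) 1) := isCompact_Icc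
  obtain ⟨P, -, hP⟩ := hK.elim_nhds_subcover (fun p => Metric.ball p (ε p))
    (fun p _ => Metric.ball_mem_nhds p (hε p))
  refine ⟨P, h, ε, hε, ?_⟩
  intro p' hp'
  have h1 : p' ∈ Set.Icc (0 : Fin 2 → ℝ) 1 := by
    constructor
    · intro k
      exact (hp' k).1.le
    · intro k
      exact (hp' k).2.le
  obtain ⟨p, hp, hpp⟩ := Set.mem_iUnion₂.1 (hP h1)
  refine ⟨p, hp, fun g hg => hh p g hg p' hp' fun k => ?_⟩
  have h2 := (dist_pi_lt_iff (hε p)).1 (Metric.mem_ball.1 hpp) k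
  rwa [Real.dist_eq] at h2

/-- the vector with slope `a` -/
def sl (a : ℝ) : Fin 2 → ℝ := ![1, a]

lemma dt_sl (a b : ℝ) : dt (sl a) (sl b) = b - a := by
  simp [dt, sl]

lemma exists_large {N : ℕ} (h : Fin N → Matrix.SpecialLinearGroup (Fin 2) ℝ) :
    ∃ M : ℕ, N ≤ M ∧ ∀ k : Fin N, dt (sl ((M : ℝ) + k)) ((vm (h k)).mulVec (sl k)) ≠ 0 := by
  have h1 : ∀ k : Fin N, ∀ᶠ M : ℕ in Filter.atTop,
      dt (sl ((M : ℝ) + k)) ((vm (h k)).mulVec (sl k)) ≠ 0 := by
    intro k
    set w := (vm (h k)).mulVec (sl k) with hw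
    have hw0 : w 0 = vm (h k) 0 0 + vm (h k) 0 1 * k := by
      simp [hw, Matrix.mulVec, dotProduct, Fin.sum_univ_two, sl]
    have hw1 : w 1 = vm (h k) 1 0 + vm (h k) 1 1 * k := by
      simp [hw, Matrix.mulVec, dotProduct, Fin.sum_univ_two, sl]
    have hd := vm_det (h k)
    obtain ⟨M0, hM0⟩ := exists_nat_gt (w 1 / w 0)
    filter_upwards [Filter.eventually_ge_atTop M0] with M hM he
    have h2 : w 1 = ((M : ℝ) + k) * w 0 := by
      have : dt (sl ((M : ℝ) + k)) w = w 1 - ((M : ℝ) + k) * w 0 := by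
        simp [dt, sl]
      rw [this] at he
      linarith
    by_cases h0 : w 0 = 0
    · rw [h0, mul_zero] at h2
      rw [h0] at hw0
      rw [h2] at hw1
      have : (1 : ℝ) = 0 := by
        linear_combination (-1 : ℝ) * hd + vm (h k) 0 1 * hw1 - vm (h k) 1 1 * hw0
      exact one_ne_zero this
    · have h3 : w 1 / w 0 = (M : ℝ) + k := by
        rw [h2]
        field_simp
      rw [h3] at hM0
      have h4 : (M0 : ℝ) ≤ M := by exact_mod_cast hM
      have h5 : (0 : ℝ) ≤ (k : ℕ) := Nat.cast_nonneg _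
      linarith
  obtain ⟨M, hM⟩ := ((Filter.eventually_all.2 h1).and (Filter.eventually_ge_atTop N)).exists
  exact ⟨M, hM.2, hM.1⟩

theorem square : ∃ (N : ℕ) (A B : Fin N → Set (Fin 2 → ℝ))
    (g : Fin N → Matrix.SpecialLinearGroup (Fin 2) ℝ),
      (∀ i, A i ⊆ Q) ∧ (∀ i, B i ⊆ Q) ∧ Pairwise (fun i i' => Disjoint (A i) (A i')) ∧
      Pairwise (fun i i' => Disjoint (B i) (B i')) ∧ (∀ i j, Disjoint (A i) (B j)) ∧
      (⋃ i, (fun v => (vm (g i)).mulVec v) '' A i) = Q ∧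
      (⋃ i, (fun v => (vm (g i)).mulVec v) '' B i) = Q := by
  classical
  obtain ⟨P, h, ε, hε, hP⟩ := exists_finite
  let e : (P × Fin 3) ≃ Fin (Fintype.card (P × Fin 3)) := Fintype.equivFin _
  set N := Fintype.card (P × Fin 3) with hN
  let hh : Fin N → Matrix.SpecialLinearGroup (Fin 2) ℝ := fun k => h (e.symm k).1
  obtain ⟨M, hM, hlarge⟩ := exists_large hh
  let z : Fin N → Fin 2 → ℝ := fun k => sl ((M : ℝ) + k)
  let y : Fin N → Fin 2 → ℝ := fun k => sl k
  have hdir : ∀ s t : Fin N × Bool, s ≠ t → dt (dir z y s) (dir z y t) ≠ 0 := by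
    rintro ⟨i, b⟩ ⟨j, b'⟩ hst
    have hi : ((i : ℕ) : ℝ) < M := by
      exact_mod_cast lt_of_lt_of_le i.2 hM
    have hj : ((j : ℕ) : ℝ) < M := by
      exact_mod_cast lt_of_lt_of_le j.2 hM
    have hi0 : (0 : ℝ) ≤ ((i : ℕ) : ℝ) := Nat.cast_nonneg _
    have hj0 : (0 : ℝ) ≤ ((j : ℕ) : ℝ) := Nat.cast_nonneg _
    cases b <;> cases b'
    · show dt (sl i) (sl j) ≠ 0
      rw [dt_sl, sub_ne_zero]
      intro h1
      apply hst
      rw [Fin.ext (by exact_mod_cast h1.symm : (i : ℕ) = j)]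
    · show dt (sl i) (sl (M + j)) ≠ 0
      rw [dt_sl, sub_ne_zero]
      intro h1
      linarith
    · show dt (sl (M + i)) (sl j) ≠ 0
      rw [dt_sl, sub_ne_zero]
      intro h1
      linarith
    · show dt (sl (M + i)) (sl (M + j)) ≠ 0
      rw [dt_sl, sub_ne_zero]
      intro h1
      apply hst
      rw [Fin.ext (by exact_mod_cast (add_left_cancel h1).symm : (i : ℕ) = j)]
  have hbad := countable_bad hh z y hlarge hdir
  have hev : ∀ᶠ t : ℝ in nhds 0, ∀ (k : Fin N) (i j : Fin 2),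
      |vm (phi hh z y t (FreeGroup.of k)) i j - vm (hh k) i j| < ε (e.symm k).1 := by
    rw [Filter.eventually_all]
    intro k
    rw [Filter.eventually_all]
    intro i
    rw [Filter.eventually_all]
    intro j
    have hcont : Continuous fun t : ℝ =>
        |vm (phi hh z y t (FreeGroup.of k)) i j - vm (hh k) i j| := by
      simp only [vm_phi]
      exact ((Polynomial.continuous _).sub continuous_const).abs
    have h0 : |vm (phi hh z y 0 (FreeGroup.of k)) i j - vm (hh k) i j| < ε (e.symm k).1 := by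
      have h1 : phi hh z y 0 (FreeGroup.of k) = hh k := by
        have hE : ∀ v : Fin 2 → ℝ, Matrix.SpecialLinearGroup.map (Polynomial.evalRingHom 0) (E v) =
            (1 : Matrix.SpecialLinearGroup (Fin 2) ℝ) := by
          intro v
          ext a b
          show Polynomial.eval 0 (vm (E v) a b) = (1 : Matrix (Fin 2) (Fin 2) ℝ) a b
          rw [vm_E]
          fin_cases a <;> fin_cases b <;> simp
        have hC : Matrix.SpecialLinearGroup.map (Polynomial.evalRingHom 0) (Cst (hh k)) = hh k := by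
          ext a b
          show Polynomial.eval 0 (Polynomial.C (vm (hh k) a b)) = vm (hh k) a b
          simp
        show Matrix.SpecialLinearGroup.map (Polynomial.evalRingHom 0)
          (FreeGroup.lift (fun i => G (hh i) (z i) (y i)) (FreeGroup.of k)) = hh k
        rw [FreeGroup.lift_apply_of, G, map_mul, map_mul, hE, hE, hC, one_mul, one_mul]
      rw [h1, sub_self, abs_zero]
      exact hε _
    exact (hcont.tendsto 0).eventually (gt_mem_nhds h0)
  obtain ⟨t, ht, htbad⟩ : ∃ t : ℝ, (∀ (k : Fin N) (i j : Fin 2),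
      |vm (phi hh z y t (FreeGroup.of k)) i j - vm (hh k) i j| < ε (e.symm k).1) ∧
      t ∉ {t : ℝ | ∃ w : FreeGroup (Fin N), w ≠ 1 ∧ ∃ v : Fin 2 → ℝ, v ≠ 0 ∧
      (vm (phi hh z y t w)).mulVec v = v} := by
    have hdense := hbad.dense_compl ℝ
    obtain ⟨U, hU, hUo, hU0⟩ := eventually_nhds_iff.1 hev
    obtain ⟨t, ht1, ht2⟩ := hdense.inter_open_nonempty U hUo ⟨0, hU0⟩
    exact ⟨t, hU t ht1, ht2⟩
  refine ⟨N, paradox (phi hh z y t) ?_ ?_⟩
  · intro w v hv hwv
    by_contra hw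
    exact htbad ⟨w, hw, v, hv, hwv⟩
  · intro v hv
    obtain ⟨p, hp, hg⟩ := hP v hv
    refine ⟨fun j => e (⟨p, hp⟩, j), ?_, ?_⟩
    · intro a b hab
      have := e.injective hab
      exact congrArg Prod.snd this
    · intro j
      apply hg
      intro a b
      have h1 := ht (e (⟨p, hp⟩, j)) a b
      simpa [hh] using h1

end Pool.Agent.X196.Sq
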