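import Mathlib

/-!
# Generic free subgroups of `SL₂(ℝ)` acting freely on the nonzero vectors
-/

set_option autoImplicit false

namespace Pool.Agent.X196.Sq

open Polynomial

/-- the underlying matrix -/
def vm {K : Type} [CommRing K] (g : Matrix.SpecialLinearGroup (Fin 2) K) : Matrix (Fin 2) (Fin 2) K := ↑g

lemma vm_mul {K : Type} [CommRing K] (g h : Matrix.SpecialLinearGroup (Fin 2) K) :
    vm (g * h) = vm g * vm h := Matrix.SpecialLinearGroup.coe_mul g h

lemma vm_one {K : Type} [CommRing K] : vm (1 : Matrix.SpecialLinearGroup (Fin 2) K) = 1 :=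
  Matrix.SpecialLinearGroup.coe_one

lemma vm_det {K : Type} [CommRing K] (g : Matrix.SpecialLinearGroup (Fin 2) K) :
    vm g 0 0 * vm g 1 1 - vm g 0 1 * vm g 1 0 = 1 := by
  have := Matrix.SpecialLinearGroup.det_coe g
  rwa [Matrix.det_fin_two] at this

lemma vm_inv {K : Type} [CommRing K] (g : Matrix.SpecialLinearGroup (Fin 2) K) :
    vm g⁻¹ = !![vm g 1 1, -(vm g 0 1); -(vm g 1 0), vm g 0 0] := by
  have := Matrix.SpecialLinearGroup.coe_inv g
  rw [Matrix.adjugate_fin_two] at this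
  exact this

/-- all entries have degree at most `d`, with matrix of coefficients `L` in degree `d` -/
def HasLead (M : Matrix (Fin 2) (Fin 2) ℝ[X]) (d : ℕ) (L : Matrix (Fin 2) (Fin 2) ℝ) : Prop :=
  ∀ i j, (M i j).natDegree ≤ d ∧ (M i j).coeff d = L i j

lemma hasLead_of {a b c d : ℝ[X]} {n : ℕ} {a' b' c' d' : ℝ} (ha : a.natDegree ≤ n)
    (hb : b.natDegree ≤ n) (hc : c.natDegree ≤ n) (hd : d.natDegree ≤ n)
    (ha' : a.coeff n = a') (hb' : b.coeff n = b') (hc' : c.coeff n = c') (hd' : d.coeff n = d') :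
    HasLead !![a, b; c, d] n !![a', b'; c', d'] := by
  intro i j
  fin_cases i <;> fin_cases j
  · exact ⟨ha, ha'⟩
  · exact ⟨hb, hb'⟩
  · exact ⟨hc, hc'⟩
  · exact ⟨hd, hd'⟩

lemma HasLead.mul {M N : Matrix (Fin 2) (Fin 2) ℝ[X]} {d e : ℕ} {L K : Matrix (Fin 2) (Fin 2) ℝ}
    (hM : HasLead M d L) (hN : HasLead N e K) : HasLead (M * N) (d + e) (L * K) := by
  intro i j
  rw [Matrix.mul_apply, Matrix.mul_apply, Fin.sum_univ_two, Fin.sum_univ_two]
  constructor
  · refine (natDegree_add_le _ _).trans (max_le ?_ ?_) <;>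
      exact natDegree_mul_le.trans (add_le_add (hM _ _).1 (hN _ _).1)
  · rw [coeff_add, coeff_mul_add_eq_of_natDegree_le (hM _ _).1 (hN _ _).1,
      coeff_mul_add_eq_of_natDegree_le (hM _ _).1 (hN _ _).1, (hM _ _).2, (hN _ _).2, (hM _ _).2,
      (hN _ _).2]

/-- the determinant of two vectors -/
def dt (v w : Fin 2 → ℝ) : ℝ := v 0 * w 1 - v 1 * w 0

/-- the matrix `w ↦ dt v w • u` -/
def R (u v : Fin 2 → ℝ) : Matrix (Fin 2) (Fin 2) ℝ :=
  !![-(u 0 * v 1), u 0 * v 0; -(u 1 * v 1), u 1 * v 0]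

lemma R_mul (u v u' v' : Fin 2 → ℝ) : R u v * R u' v' = dt v u' • R u v' := by
  ext i j
  fin_cases i <;> fin_cases j <;> simp [R, dt, Matrix.mul_apply, Fin.sum_univ_two] <;> ring

lemma trace_R (u v : Fin 2 → ℝ) : (R u v).trace = dt v u := by
  simp [R, dt, Matrix.trace_fin_two]
  ring

/-- the transvection `1 + X R v v`, as a polynomial matrix -/
noncomputable def E (v : Fin 2 → ℝ) : Matrix.SpecialLinearGroup (Fin 2) ℝ[X] :=
  ⟨!![1 - C (v 0 * v 1) * X, C (v 0 * v 0) * X; -(C (v 1 * v 1) * X), 1 + C (v 0 * v 1) * X], by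
    rw [Matrix.det_fin_two_of]
    simp only [map_mul]
    ring⟩

lemma vm_E (v : Fin 2 → ℝ) : vm (E v) = !![1 - C (v 0 * v 1) * X, C (v 0 * v 0) * X;
    -(C (v 1 * v 1) * X), 1 + C (v 0 * v 1) * X] := rfl

lemma deg1 (a b : ℝ) : (C a + C b * X).natDegree ≤ 1 := by
  compute_degree

lemma coeff1 (a b : ℝ) : (C a + C b * X).coeff 1 = b := by
  rw [coeff_add, coeff_C_mul_X, coeff_C]
  simp

lemma hasLead_lin (a b c d a' b' c' d' : ℝ) :
    HasLead !![C a' + C a * X, C b' + C b * X; C c' + C c * X, C d' + C d * X] 1 !![a, b; c, d] :=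
  hasLead_of (deg1 _ _) (deg1 _ _) (deg1 _ _) (deg1 _ _) (coeff1 _ _) (coeff1 _ _) (coeff1 _ _)
    (coeff1 _ _)

lemma E_lead (v : Fin 2 → ℝ) : HasLead (vm (E v)) 1 (R v v) := by
  have h := hasLead_lin (-(v 0 * v 1)) (v 0 * v 0) (-(v 1 * v 1)) (v 1 * v 0) 1 0 0 1
  have h1 : vm (E v) = !![C 1 + C (-(v 0 * v 1)) * X, C 0 + C (v 0 * v 0) * X;
      C 0 + C (-(v 1 * v 1)) * X, C 1 + C (v 1 * v 0) * X] := by
    rw [vm_E]
    simp only [map_neg, map_mul, C_0, C_1, zero_add]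
    congr 1
    ring_nf
  rw [h1]
  exact h

lemma E_inv_lead (v : Fin 2 → ℝ) : HasLead (vm (E v)⁻¹) 1 (-R v v) := by
  have h := hasLead_lin ((v 0 * v 1)) (-(v 0 * v 0)) ((v 1 * v 1)) (-(v 1 * v 0)) 1 0 0 1
  have h1 : vm (E v)⁻¹ = !![C 1 + C ((v 0 * v 1)) * X, C 0 + C (-(v 0 * v 0)) * X;
      C 0 + C ((v 1 * v 1)) * X, C 1 + C (-(v 1 * v 0)) * X] := by
    rw [vm_inv, vm_E]
    simp only [map_neg, map_mul, C_0, C_1, zero_add, Matrix.of_apply, Matrix.cons_val',
      Matrix.cons_val_zero, Matrix.cons_val_one, Matrix.cons_val_fin_one]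
    congr 1
    ring_nf
  have h2 : -R v v = !![((v 0 * v 1)), (-(v 0 * v 0)); ((v 1 * v 1)), (-(v 1 * v 0))] := by
    ext i j
    fin_cases i <;> fin_cases j <;> simp [R]
  rw [h1, h2]
  exact h

/-- constant matrices -/
noncomputable def Cst : Matrix.SpecialLinearGroup (Fin 2) ℝ →* Matrix.SpecialLinearGroup (Fin 2) ℝ[X] :=
  Matrix.SpecialLinearGroup.map C

lemma Cst_lead (h : Matrix.SpecialLinearGroup (Fin 2) ℝ) : HasLead (vm (Cst h)) 0 (vm h) := by
  intro i j
  have h1 : vm (Cst h) i j = C (vm h i j) := rfl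
  rw [h1]
  refine ⟨?_, ?_⟩
  · simp
  · simp

lemma R_mul_SL (u v : Fin 2 → ℝ) (h : Matrix.SpecialLinearGroup (Fin 2) ℝ) :
    R u ((vm h).mulVec v) * vm h = R u v := by
  have hd := vm_det h
  ext i j
  fin_cases i <;> fin_cases j
  · simp [R, Matrix.mul_apply, Fin.sum_univ_two, Matrix.mulVec, dotProduct]
    linear_combination (-(u 0 * v 1)) * hd
  · simp [R, Matrix.mul_apply, Fin.sum_univ_two, Matrix.mulVec, dotProduct]
    linear_combination ((u 0 * v 0)) * hd
  · simp [R, Matrix.mul_apply, Fin.sum_univ_two, Matrix.mulVec, dotProduct]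
    linear_combination (-(u 1 * v 1)) * hd
  · simp [R, Matrix.mul_apply, Fin.sum_univ_two, Matrix.mulVec, dotProduct]
    linear_combination ((u 1 * v 0)) * hd

lemma inv_mul_R (u v : Fin 2 → ℝ) (h : Matrix.SpecialLinearGroup (Fin 2) ℝ) :
    vm h⁻¹ * R ((vm h).mulVec u) v = R u v := by
  have hd := vm_det h
  rw [vm_inv]
  ext i j
  fin_cases i <;> fin_cases j
  · simp [R, Matrix.mul_apply, Fin.sum_univ_two, Matrix.mulVec, dotProduct]
    linear_combination (-(u 0 * v 1)) * hd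
  · simp [R, Matrix.mul_apply, Fin.sum_univ_two, Matrix.mulVec, dotProduct]
    linear_combination ((u 0 * v 0)) * hd
  · simp [R, Matrix.mul_apply, Fin.sum_univ_two, Matrix.mulVec, dotProduct]
    linear_combination (-(u 1 * v 1)) * hd
  · simp [R, Matrix.mul_apply, Fin.sum_univ_two, Matrix.mulVec, dotProduct]
    linear_combination ((u 1 * v 0)) * hd

/-- the generator through `h` with attracting direction `z` and repelling direction `y` -/
noncomputable def G (h : Matrix.SpecialLinearGroup (Fin 2) ℝ) (z y : Fin 2 → ℝ) :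
    Matrix.SpecialLinearGroup (Fin 2) ℝ[X] :=
  E z * E ((vm h).mulVec y) * Cst h

lemma G_lead (h : Matrix.SpecialLinearGroup (Fin 2) ℝ) (z y : Fin 2 → ℝ) :
    HasLead (vm (G h z y)) 2 (dt z ((vm h).mulVec y) • R z y) := by
  have h1 := ((E_lead z).mul (E_lead ((vm h).mulVec y))).mul (Cst_lead h)
  have h2 : R z z * R ((vm h).mulVec y) ((vm h).mulVec y) * vm h =
      dt z ((vm h).mulVec y) • R z y := by
    rw [R_mul, Matrix.smul_mul, R_mul_SL]
  rw [h2] at h1
  rw [G, vm_mul, vm_mul]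
  exact h1

lemma G_inv_lead (h : Matrix.SpecialLinearGroup (Fin 2) ℝ) (z y : Fin 2 → ℝ) :
    HasLead (vm (G h z y)⁻¹) 2 (dt ((vm h).mulVec y) z • R y z) := by
  have h0 : (G h z y)⁻¹ = Cst h⁻¹ * ((E ((vm h).mulVec y))⁻¹ * (E z)⁻¹) := by
    rw [G, map_inv]
    group
  have h1 := (Cst_lead h⁻¹).mul ((E_inv_lead ((vm h).mulVec y)).mul (E_inv_lead z))
  have h2 : vm h⁻¹ * (-R ((vm h).mulVec y) ((vm h).mulVec y) * -R z z) =
      dt ((vm h).mulVec y) z • R y z := by
    rw [neg_mul_neg, R_mul, Matrix.mul_smul, inv_mul_R]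
  rw [h2] at h1
  rw [h0, vm_mul, vm_mul]
  exact h1

/-! ### words -/

section Words

variable {ι : Type} (h : ι → Matrix.SpecialLinearGroup (Fin 2) ℝ) (z y : ι → Fin 2 → ℝ)

/-- the direction attached to a letter -/
def dir : ι × Bool → Fin 2 → ℝ
  | (i, true) => z i
  | (i, false) => y i

/-- the inverse letter -/
def bar (s : ι × Bool) : ι × Bool := (s.1, !s.2)

/-- the polynomial matrix of a letter -/
noncomputable def Ltr : ι × Bool → Matrix.SpecialLinearGroup (Fin 2) ℝ[X]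
  | (i, true) => G (h i) (z i) (y i)
  | (i, false) => (G (h i) (z i) (y i))⁻¹

lemma Ltr_lead (hzy : ∀ i, dt (z i) ((vm (h i)).mulVec (y i)) ≠ 0) (s : ι × Bool) :
    ∃ c : ℝ, c ≠ 0 ∧ HasLead (vm (Ltr h z y s)) 2 (c • R (dir z y s) (dir z y (bar s))) := by
  obtain ⟨i, b⟩ := s
  cases b
  · refine ⟨dt ((vm (h i)).mulVec (y i)) (z i), ?_, G_inv_lead _ _ _⟩
    have : dt ((vm (h i)).mulVec (y i)) (z i) = - dt (z i) ((vm (h i)).mulVec (y i)) := by
      unfold dt; ring
    rw [this]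
    exact neg_ne_zero.2 (hzy i)
  · exact ⟨_, hzy i, G_lead _ _ _⟩

lemma word_lead (hzy : ∀ i, dt (z i) ((vm (h i)).mulVec (y i)) ≠ 0)
    (hd : ∀ s t : ι × Bool, s ≠ t → dt (dir z y s) (dir z y t) ≠ 0) :
    ∀ (L : List (ι × Bool)) (s : ι × Bool), FreeGroup.IsReduced (s :: L) →
    ∃ c : ℝ, c ≠ 0 ∧ HasLead (vm ((s :: L).map (Ltr h z y)).prod) (2 * (L.length + 1))
      (c • R (dir z y s) (dir z y (bar ((s :: L).getLast (List.cons_ne_nil _ _))))) := by
  intro L
  induction L with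
  | nil =>
    intro s _
    obtain ⟨c, hc, h1⟩ := Ltr_lead h z y hzy s
    refine ⟨c, hc, ?_⟩
    simpa using h1
  | cons t L ih =>
    intro s hs
    have hs' : FreeGroup.IsReduced (t :: L) := by
      unfold FreeGroup.IsReduced at hs ⊢
      exact hs.tail
    have hst : s.1 = t.1 → s.2 = t.2 := by
      unfold FreeGroup.IsReduced at hs
      exact (List.isChain_cons_cons.1 hs).1
    obtain ⟨c, hc, h1⟩ := ih t hs'
    obtain ⟨c', hc', h2⟩ := Ltr_lead h z y hzy s
    have hne : bar s ≠ t := by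
      intro he
      have h3 : s.1 = t.1 := by rw [← he]; rfl
      have h4 := hst h3
      rw [← he] at h4
      simp [bar] at h4
    refine ⟨c' * c * dt (dir z y (bar s)) (dir z y t),
      mul_ne_zero (mul_ne_zero hc' hc) (hd _ _ hne), ?_⟩
    have h3 := h2.mul h1
    rw [Matrix.smul_mul, Matrix.mul_smul, R_mul, smul_smul, smul_smul] at h3
    have h4 : 2 + 2 * (L.length + 1) = 2 * ((t :: L).length + 1) := by
      simp; ring
    rw [h4, ← vm_mul, ← List.prod_cons, ← List.map_cons] at h3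
    rw [List.getLast_cons (List.cons_ne_nil _ _)]
    convert h3 using 2



/-- the representation of the free group by polynomial matrices -/
noncomputable def Phi : FreeGroup ι →* Matrix.SpecialLinearGroup (Fin 2) ℝ[X] :=
  FreeGroup.lift fun i => G (h i) (z i) (y i)

lemma Phi_mk (L : List (ι × Bool)) : Phi h z y (FreeGroup.mk L) = (L.map (Ltr h z y)).prod := by
  unfold Phi
  rw [FreeGroup.lift_mk]
  congr 2
  funext x
  obtain ⟨i, b⟩ := x
  cases b <;> rfl

/-- the trace of the polynomial matrix of a nontrivial word is not constant -/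
lemma trace_Phi [DecidableEq ι] (hzy : ∀ i, dt (z i) ((vm (h i)).mulVec (y i)) ≠ 0)
    (hd : ∀ s t : ι × Bool, s ≠ t → dt (dir z y s) (dir z y t) ≠ 0)
    (w : FreeGroup ι) (hw : w ≠ 1) : (vm (Phi h z y w)).trace - 2 ≠ 0 := by
  have h0 := FreeGroup.reduceCyclically.conj_conjugator_reduceCyclically w.toWord
  have hred := FreeGroup.reduceCyclically.isCyclicallyReduced (L := w.toWord)
    FreeGroup.isReduced_toWord
  set L := FreeGroup.reduceCyclically w.toWord with hL
  set K := FreeGroup.reduceCyclically.conjugator w.toWord with hK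
  have h1 : w = FreeGroup.mk K * FreeGroup.mk L * (FreeGroup.mk K)⁻¹ := by
    rw [FreeGroup.inv_mk, FreeGroup.mul_mk, FreeGroup.mul_mk, h0, FreeGroup.mk_toWord]
  have h2 : (vm (Phi h z y w)).trace = (vm (Phi h z y (FreeGroup.mk L))).trace := by
    conv_lhs => rw [h1]
    rw [map_mul, map_mul, map_inv]
    rw [vm_mul, vm_mul, Matrix.trace_mul_comm, ← Matrix.mul_assoc, ← vm_mul, inv_mul_cancel,
      vm_one, Matrix.one_mul]
  rw [h2]
  have hLne : L ≠ [] := by
    intro he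
    rw [he] at h1
    apply hw
    rw [h1, ← FreeGroup.one_eq_mk]
    group
  obtain ⟨s, L', hs⟩ := List.exists_cons_of_ne_nil hLne
  rw [hs] at hred ⊢
  obtain ⟨c, hc, h3⟩ := word_lead h z y hzy hd L' s hred.1
  rw [← Phi_mk] at h3
  have h4 : ((vm (Phi h z y (FreeGroup.mk (s :: L')))).trace).coeff (2 * (L'.length + 1)) ≠ 0 := by
    rw [Matrix.trace_fin_two, coeff_add, (h3 0 0).2, (h3 1 1).2, ← Matrix.trace_fin_two,
      Matrix.trace_smul, trace_R, smul_eq_mul]
    refine mul_ne_zero hc (hd _ _ ?_)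
    intro he
    have h5 := hred.2 ((s :: L').getLast (List.cons_ne_nil _ _))
      (List.getLast?_eq_getLast_of_ne_nil _) s rfl
    have h6 : ((s :: L').getLast (List.cons_ne_nil _ _)).1 = s.1 := by
      conv_rhs => rw [← he]
      rfl
    have h7 := h5 h6
    conv_rhs at h7 => rw [← he]
    simp [bar] at h7
  intro h5
  apply h4
  rw [sub_eq_zero.1 h5]
  have h6 : (2 : ℝ[X]) = C 2 := rfl
  rw [h6, coeff_C]
  simp

/-- the representation at `t` -/
noncomputable def phi (t : ℝ) : FreeGroup ι →* Matrix.SpecialLinearGroup (Fin 2) ℝ :=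
  (Matrix.SpecialLinearGroup.map (evalRingHom t)).comp (Phi h z y)

lemma vm_phi (t : ℝ) (w : FreeGroup ι) (i j : Fin 2) :
    vm (phi h z y t w) i j = (vm (Phi h z y w) i j).eval t := rfl

/-- for all but countably many `t` the free group acts freely on the nonzero vectors -/
theorem countable_bad [DecidableEq ι] [Countable ι] (hzy : ∀ i, dt (z i) ((vm (h i)).mulVec (y i)) ≠ 0)
    (hd : ∀ s t : ι × Bool, s ≠ t → dt (dir z y s) (dir z y t) ≠ 0) :
    {t : ℝ | ∃ w : FreeGroup ι, w ≠ 1 ∧ ∃ v : Fin 2 → ℝ, v ≠ 0 ∧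
      (vm (phi h z y t w)).mulVec v = v}.Countable := by
  have hcount : Countable (FreeGroup ι) := by
    classical
    exact FreeGroup.toWord_injective.countable
  have h1 : {t : ℝ | ∃ w : FreeGroup ι, w ≠ 1 ∧ ∃ v : Fin 2 → ℝ, v ≠ 0 ∧
      (vm (phi h z y t w)).mulVec v = v} ⊆ ⋃ w : FreeGroup ι, {t : ℝ | w ≠ 1 ∧
        ((vm (Phi h z y w)).trace - 2).eval t = 0} := by
    rintro t ⟨w, hw, v, hv, hwv⟩
    refine Set.mem_iUnion.2 ⟨w, hw, ?_⟩
    have h2 : (vm (phi h z y t w) - 1).mulVec v = 0 := by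
      rw [Matrix.sub_mulVec, hwv, Matrix.one_mulVec, sub_self]
    have h3 : (vm (phi h z y t w) - 1).det = 0 :=
      Matrix.exists_mulVec_eq_zero_iff.1 ⟨v, hv, h2⟩
    have h5 := vm_det (phi h z y t w)
    rw [Matrix.det_fin_two] at h3
    simp only [Matrix.sub_apply, Matrix.one_apply] at h3
    rw [eval_sub, Matrix.trace_fin_two, eval_add, ← vm_phi, ← vm_phi]
    have h6 : (2 : ℝ[X]).eval t = 2 := by simp
    rw [h6]
    norm_num at h3
    linarith
  refine Set.Countable.mono h1 (Set.countable_iUnion fun w => ?_)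
  by_cases hw : w = 1
  · simp [hw]
  · refine Set.Countable.mono (fun t ht => ?_)
      (Polynomial.finite_setOfPred_isRoot (trace_Phi h z y hzy hd w hw)).countable
    exact ht.2

end Words

end Pool.Agent.X196.Sq
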