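import Pool.Agent.X196.Sq.Alg

/-!
# Paradoxical decompositions from free actions with three neighbours
-/

set_option autoImplicit false

namespace Pool.Agent.X196.Sq

/-- the open unit square -/
def Q : Set (Fin 2 → ℝ) := {v | ∀ k, 0 < v k ∧ v k < 1}

section Par

variable {N : ℕ} (ρ : FreeGroup (Fin N) →* Matrix.SpecialLinearGroup (Fin 2) ℝ)

/-- the action on vectors -/
def ac (g : FreeGroup (Fin N)) (v : Fin 2 → ℝ) : Fin 2 → ℝ := (vm (ρ g)).mulVec v

lemma ac_mul (g h : FreeGroup (Fin N)) (v : Fin 2 → ℝ) : ac ρ (g * h) v = ac ρ g (ac ρ h v) := by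
  unfold ac
  rw [map_mul, vm_mul, Matrix.mulVec_mulVec]

lemma ac_one (v : Fin 2 → ℝ) : ac ρ 1 v = v := by
  unfold ac
  rw [map_one, vm_one, Matrix.one_mulVec]

lemma ac_inv (g : FreeGroup (Fin N)) (v : Fin 2 → ℝ) : ac ρ g⁻¹ (ac ρ g v) = v := by
  rw [← ac_mul, inv_mul_cancel, ac_one]

lemma ac_inv' (g : FreeGroup (Fin N)) (v : Fin 2 → ℝ) : ac ρ g (ac ρ g⁻¹ v) = v := by
  rw [← ac_mul, mul_inv_cancel, ac_one]

lemma ac_zero (g : FreeGroup (Fin N)) : ac ρ g 0 = 0 := by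
  unfold ac
  exact Matrix.mulVec_zero _

/-- the orbit relation -/
def orb : Setoid (Fin 2 → ℝ) where
  r v w := ∃ g : FreeGroup (Fin N), w = ac ρ g v
  iseqv := by
    refine ⟨fun v => ⟨1, (ac_one ρ v).symm⟩, ?_, ?_⟩
    · rintro v w ⟨g, rfl⟩
      exact ⟨g⁻¹, (ac_inv ρ g v).symm⟩
    · rintro u v w ⟨g, rfl⟩ ⟨h, rfl⟩
      exact ⟨h * g, by rw [ac_mul]⟩

/-- a representative of the orbit -/
noncomputable def rep (v : Fin 2 → ℝ) : Fin 2 → ℝ := (Quotient.mk (orb ρ) v).out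

lemma exists_gam (v : Fin 2 → ℝ) : ∃ g : FreeGroup (Fin N), v = ac ρ g (rep ρ v) :=
  Quotient.exact (s := orb ρ) (Quotient.out_eq (Quotient.mk (orb ρ) v))

/-- the element carrying the representative to the vector -/
noncomputable def gam (v : Fin 2 → ℝ) : FreeGroup (Fin N) := (exists_gam ρ v).choose

lemma gam_spec (v : Fin 2 → ℝ) : v = ac ρ (gam ρ v) (rep ρ v) := (exists_gam ρ v).choose_spec

lemma rep_ac (g : FreeGroup (Fin N)) (v : Fin 2 → ℝ) : rep ρ (ac ρ g v) = rep ρ v := by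
  unfold rep
  congr 1
  exact Quotient.sound (s := orb ρ) (show ∃ h : FreeGroup (Fin N), v = ac ρ h (ac ρ g v) from
    ⟨g⁻¹, (ac_inv ρ g v).symm⟩)

lemma gam_ac (hfree : ∀ w : FreeGroup (Fin N), ∀ v : Fin 2 → ℝ, v ≠ 0 → ac ρ w v = v → w = 1)
    (g : FreeGroup (Fin N)) (v : Fin 2 → ℝ) (hv : v ≠ 0) : gam ρ (ac ρ g v) = g * gam ρ v := by
  have h1 := gam_spec ρ (ac ρ g v)
  rw [rep_ac] at h1
  have h2 : ac ρ (g * gam ρ v) (rep ρ v) = ac ρ g v := by
    rw [ac_mul, ← gam_spec]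
  have h3 : rep ρ v ≠ 0 := by
    intro h
    apply hv
    rw [gam_spec ρ v, h, ac_zero]
  have h4 : ac ρ ((g * gam ρ v)⁻¹ * gam ρ (ac ρ g v)) (rep ρ v) = rep ρ v := by
    rw [ac_mul, ← h1, ← h2, ac_inv]
  have h5 := hfree _ _ h3 h4
  exact (inv_mul_eq_one.1 h5).symm

lemma toWord_of_mul (i : Fin N) (g : FreeGroup (Fin N)) (hg : g.toWord.head? ≠ some (i, false)) :
    (FreeGroup.of i * g).toWord = (i, true) :: g.toWord := by
  rw [FreeGroup.toWord_mul, FreeGroup.toWord_of, List.singleton_append]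
  apply FreeGroup.IsReduced.reduce_eq
  have h1 : FreeGroup.IsReduced g.toWord := FreeGroup.isReduced_toWord
  unfold FreeGroup.IsReduced at h1 ⊢
  cases h : g.toWord with
  | nil => exact List.isChain_singleton _
  | cons s L =>
    rw [h] at h1 hg
    refine List.isChain_cons_cons.2 ⟨?_, h1⟩
    intro h2
    by_contra h3
    apply hg
    rw [List.head?_cons]
    congr 1
    ext
    · simp [← h2]
    · simp only [Bool.not_eq_true] at h3
      cases hs : s.2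
      · rfl
      · exact absurd hs.symm h3

theorem paradox (hfree : ∀ w : FreeGroup (Fin N), ∀ v : Fin 2 → ℝ, v ≠ 0 → ac ρ w v = v → w = 1)
    (h3 : ∀ v ∈ Q, ∃ f : Fin 3 → Fin N, Function.Injective f ∧
      ∀ j, ac ρ (FreeGroup.of (f j)) v ∈ Q) :
    ∃ (A B : Fin N → Set (Fin 2 → ℝ)) (g : Fin N → Matrix.SpecialLinearGroup (Fin 2) ℝ),
      (∀ i, A i ⊆ Q) ∧ (∀ i, B i ⊆ Q) ∧ Pairwise (fun i i' => Disjoint (A i) (A i')) ∧
      Pairwise (fun i i' => Disjoint (B i) (B i')) ∧ (∀ i j, Disjoint (A i) (B j)) ∧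
      (⋃ i, (fun v => (vm (g i)).mulVec v) '' A i) = Q ∧
      (⋃ i, (fun v => (vm (g i)).mulVec v) '' B i) = Q := by
  have hne : ∀ v ∈ Q, v ≠ 0 := by
    rintro v hv rfl
    exact lt_irrefl _ (hv 0).1
  have key : ∀ v : Fin 2 → ℝ, ∃ c : Fin N × Fin N, v ∈ Q → c.1 ≠ c.2 ∧
      (ac ρ (FreeGroup.of c.1) v ∈ Q ∧ (gam ρ v).toWord.head? ≠ some (c.1, false)) ∧
      (ac ρ (FreeGroup.of c.2) v ∈ Q ∧ (gam ρ v).toWord.head? ≠ some (c.2, false)) := by
    intro v
    by_cases hv : v ∈ Q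
    · obtain ⟨f, hf, hQ⟩ := h3 v hv
      have hinj : ∀ a b : Fin 3, (gam ρ v).toWord.head? = some (f a, false) →
          (gam ρ v).toWord.head? = some (f b, false) → a = b := by
        intro a b ha hb
        rw [ha] at hb
        apply hf
        simpa using hb
      by_cases h0 : (gam ρ v).toWord.head? = some (f 0, false)
      · refine ⟨(f 1, f 2), fun _ => ⟨fun h => absurd (hf h) (by decide), ⟨hQ 1, fun h => ?_⟩,
          ⟨hQ 2, fun h => ?_⟩⟩⟩
        · exact absurd (hinj _ _ h0 h) (by decide)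
        · exact absurd (hinj _ _ h0 h) (by decide)
      · by_cases h1 : (gam ρ v).toWord.head? = some (f 1, false)
        · refine ⟨(f 0, f 2), fun _ => ⟨fun h => absurd (hf h) (by decide), ⟨hQ 0, h0⟩,
            ⟨hQ 2, fun h => ?_⟩⟩⟩
          exact absurd (hinj _ _ h1 h) (by decide)
        · exact ⟨(f 0, f 1), fun _ => ⟨fun h => absurd (hf h) (by decide), ⟨hQ 0, h0⟩,
            ⟨hQ 1, h1⟩⟩⟩
    · obtain ⟨f, -, -⟩ := h3 (fun _ => 1 / 2) (fun k => by norm_num)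
      exact ⟨(f 0, f 0), fun h => absurd h hv⟩
  choose c hc using key
  have hword1 : ∀ v ∈ Q, (gam ρ (ac ρ (FreeGroup.of (c v).1) v)).toWord =
      ((c v).1, true) :: (gam ρ v).toWord := by
    intro v hv
    rw [gam_ac ρ hfree _ _ (hne v hv)]
    exact toWord_of_mul _ _ (hc v hv).2.1.2
  have hword2 : ∀ v ∈ Q, (gam ρ (ac ρ (FreeGroup.of (c v).2) v)).toWord =
      ((c v).2, true) :: (gam ρ v).toWord := by
    intro v hv
    rw [gam_ac ρ hfree _ _ (hne v hv)]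
    exact toWord_of_mul _ _ (hc v hv).2.2.2
  let A : Fin N → Set (Fin 2 → ℝ) := fun i =>
    {w | ∃ v ∈ Q, (c v).1 = i ∧ w = ac ρ (FreeGroup.of (c v).1) v}
  let B : Fin N → Set (Fin 2 → ℝ) := fun i =>
    {w | ∃ v ∈ Q, (c v).2 = i ∧ w = ac ρ (FreeGroup.of (c v).2) v}
  refine ⟨A, B, fun i => ρ (FreeGroup.of i)⁻¹, ?_, ?_, ?_, ?_, ?_, ?_, ?_⟩
  · rintro i w ⟨v, hv, -, rfl⟩
    exact (hc v hv).2.1.1
  · rintro i w ⟨v, hv, -, rfl⟩
    exact (hc v hv).2.2.1
  · intro i i' hii'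
    rw [Set.disjoint_left]
    rintro w ⟨v, hv, hi, hw⟩ ⟨v', hv', hi', hw'⟩
    have h4 := hword1 v hv
    rw [← hw, hw', hword1 v' hv'] at h4
    have h5 := (List.cons.inj h4).1
    apply hii'
    rw [← hi, ← hi']
    exact (congrArg Prod.fst h5).symm
  · intro i i' hii'
    rw [Set.disjoint_left]
    rintro w ⟨v, hv, hi, hw⟩ ⟨v', hv', hi', hw'⟩
    have h4 := hword2 v hv
    rw [← hw, hw', hword2 v' hv'] at h4
    have h5 := (List.cons.inj h4).1
    apply hii'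
    rw [← hi, ← hi']
    exact (congrArg Prod.fst h5).symm
  · intro i j
    rw [Set.disjoint_left]
    rintro w ⟨v, hv, hi, hw⟩ ⟨v', hv', hi', hw'⟩
    have h4 := hword1 v hv
    rw [← hw, hw', hword2 v' hv'] at h4
    have h5 := congrArg Prod.fst (List.cons.inj h4).1
    simp only at h5
    have h6 : v = v' := by
      rw [← ac_inv ρ (FreeGroup.of (c v).1) v, ← hw, hw', h5, ac_inv]
    rw [← h6] at h5
    exact (hc v hv).1 h5.symm
  · ext v
    simp only [Set.mem_iUnion, Set.mem_image]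
    constructor
    · rintro ⟨i, w, ⟨v', hv', hi, rfl⟩, rfl⟩
      have : (vm (ρ (FreeGroup.of i)⁻¹)).mulVec (ac ρ (FreeGroup.of (c v').1) v') = v' := by
        rw [← hi]
        exact ac_inv ρ _ _
      rw [this]
      exact hv'
    · intro hv
      exact ⟨(c v).1, _, ⟨v, hv, rfl, rfl⟩, ac_inv ρ _ _⟩
  · ext v
    simp only [Set.mem_iUnion, Set.mem_image]
    constructor
    · rintro ⟨i, w, ⟨v', hv', hi, rfl⟩, rfl⟩
      have : (vm (ρ (FreeGroup.of i)⁻¹)).mulVec (ac ρ (FreeGroup.of (c v').2) v') = v' := by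
        rw [← hi]
        exact ac_inv ρ _ _
      rw [this]
      exact hv'
    · intro hv
      exact ⟨(c v).2, _, ⟨v, hv, rfl, rfl⟩, ac_inv ρ _ _⟩

end Par

end Pool.Agent.X196.Sq
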